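import Pool.Agent.N300.UN.Stubs
import Pool.Agent.W444.QG.Env

/-!
# The sequence algebra `ℓ^∞(B)/c_0(B)` as a C*-algebra
-/

set_option autoImplicit false
set_option linter.unusedSectionVars false

open scoped BoundedContinuousFunction
open Pool.Agent.H923R2.FP Pool.Agent.H923R2.FZ Pool.Agent.N300.UN

noncomputable section

namespace Pool.Agent.N839.UN

variable (B : Type) [CStarAlgebra B]

/-- the eventual upper bounds -/
def ub {B : Type} [CStarAlgebra B] (X : ℕ →ᵇ B) : Set ℝ :=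
  {r | 0 ≤ r ∧ ∀ᶠ k in Filter.atTop, ‖X k‖ ≤ r}

/-- `limsup ‖X k‖` -/
def ls {B : Type} [CStarAlgebra B] (X : ℕ →ᵇ B) : ℝ := sInf (ub X)

variable {B}

lemma ub_ne (X : ℕ →ᵇ B) : (ub X).Nonempty :=
  ⟨‖X‖, norm_nonneg _, Filter.Eventually.of_forall fun k => X.norm_coe_le_norm k⟩

lemma ub_bdd (X : ℕ →ᵇ B) : BddBelow (ub X) := ⟨0, fun _ h => h.1⟩

lemma ls_nonneg (X : ℕ →ᵇ B) : 0 ≤ ls X := Real.sInf_nonneg fun _ h => h.1

lemma ls_le (X : ℕ →ᵇ B) (r : ℝ) (hr : 0 ≤ r) (h : ∀ᶠ k in Filter.atTop, ‖X k‖ ≤ r) :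
    ls X ≤ r := csInf_le (ub_bdd X) ⟨hr, h⟩

lemma lt_of_ls (X : ℕ →ᵇ B) (r : ℝ) (h : ls X < r) : ∀ᶠ k in Filter.atTop, ‖X k‖ < r := by
  obtain ⟨s, hs, hsr⟩ := exists_lt_of_csInf_lt (ub_ne X) h
  exact hs.2.mono fun k hk => lt_of_le_of_lt hk hsr

lemma ls_zero : ls (0 : ℕ →ᵇ B) = 0 :=
  le_antisymm (ls_le _ 0 le_rfl (by simp)) (ls_nonneg _)

lemma ls_add (X Y : ℕ →ᵇ B) : ls (X + Y) ≤ ls X + ls Y := by
  refine le_of_forall_pos_le_add fun e he => ?_
  have h1 := lt_of_ls X (ls X + e / 2) (by linarith)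
  have h2 := lt_of_ls Y (ls Y + e / 2) (by linarith)
  have := ls_nonneg X
  have := ls_nonneg Y
  refine ls_le _ _ (by linarith) ?_
  filter_upwards [h1, h2] with k h1 h2
  have h3 : ‖(X + Y) k‖ ≤ ‖X k‖ + ‖Y k‖ := by
    rw [BoundedContinuousFunction.add_apply]; exact norm_add_le _ _
  linarith

lemma ls_mul (X Y : ℕ →ᵇ B) : ls (X * Y) ≤ ls X * ls Y := by
  have hX := ls_nonneg X
  have hY := ls_nonneg Y
  have h : ∀ e : ℝ, 0 < e → ls (X * Y) ≤ (ls X + e) * (ls Y + e) := by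
    intro e he
    have h1 := lt_of_ls X (ls X + e) (by linarith)
    have h2 := lt_of_ls Y (ls Y + e) (by linarith)
    refine ls_le _ _ (by positivity) ?_
    filter_upwards [h1, h2] with k h1 h2
    have h3 : ‖(X * Y) k‖ ≤ ‖X k‖ * ‖Y k‖ := by
      rw [BoundedContinuousFunction.mul_apply]; exact norm_mul_le _ _
    exact h3.trans (mul_le_mul h1.le h2.le (norm_nonneg _) (by linarith))
  have hc : Filter.Tendsto (fun e : ℝ => (ls X + e) * (ls Y + e)) (nhdsWithin 0 (Set.Ioi 0))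
      (nhds (ls X * ls Y)) := by
    have : Filter.Tendsto (fun e : ℝ => (ls X + e) * (ls Y + e)) (nhds 0)
        (nhds ((ls X + 0) * (ls Y + 0))) := by
      apply Continuous.tendsto; fun_prop
    rw [add_zero, add_zero] at this
    exact this.mono_left nhdsWithin_le_nhds
  refine ge_of_tendsto hc ?_
  filter_upwards [self_mem_nhdsWithin] with e he
  exact h e he

lemma ls_smul_le (c : ℂ) (X : ℕ →ᵇ B) : ls (c • X) ≤ ‖c‖ * ls X := by
  rcases eq_or_ne c 0 with rfl | hc
  · rw [zero_smul, ls_zero, norm_zero, zero_mul]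
  have hc' : 0 < ‖c‖ := norm_pos_iff.2 hc
  refine le_of_forall_pos_le_add fun e he => ?_
  have h1 := lt_of_ls X (ls X + e / ‖c‖) (by have : 0 < e / ‖c‖ := by positivity
                                             linarith)
  have hX := ls_nonneg X
  refine ls_le _ _ (by positivity) ?_
  filter_upwards [h1] with k h1
  have h3 : ‖(c • X) k‖ = ‖c‖ * ‖X k‖ := by
    rw [BoundedContinuousFunction.smul_apply, norm_smul]
  rw [h3]
  have : ‖c‖ * ‖X k‖ ≤ ‖c‖ * (ls X + e / ‖c‖) := mul_le_mul_of_nonneg_left h1.le hc'.le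
  have h4 : ‖c‖ * (ls X + e / ‖c‖) = ‖c‖ * ls X + e := by field_simp
  linarith

lemma ls_smul (c : ℂ) (X : ℕ →ᵇ B) : ls (c • X) = ‖c‖ * ls X := by
  apply le_antisymm (ls_smul_le c X)
  rcases eq_or_ne c 0 with rfl | hc
  · rw [norm_zero, zero_mul]; exact ls_nonneg _
  have hc' : 0 < ‖c‖ := norm_pos_iff.2 hc
  have h := ls_smul_le c⁻¹ (c • X)
  rw [smul_smul, inv_mul_cancel₀ hc, one_smul, norm_inv] at h
  calc ‖c‖ * ls X ≤ ‖c‖ * (‖c‖⁻¹ * ls (c • X)) := mul_le_mul_of_nonneg_left h hc'.le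
    _ = ls (c • X) := by rw [← mul_assoc, mul_inv_cancel₀ hc'.ne', one_mul]

lemma ls_cstar (X : ℕ →ᵇ B) : ls (star X * X) = ls X ^ 2 := by
  have hk : ∀ k, ‖(star X * X) k‖ = ‖X k‖ ^ 2 := by
    intro k
    rw [BoundedContinuousFunction.mul_apply, BoundedContinuousFunction.star_apply,
      CStarRing.norm_star_mul_self, sq]
  have hX := ls_nonneg X
  have hXX := ls_nonneg (star X * X)
  apply le_antisymm
  · have h := ls_mul (star X) X
    have hs : ls (star X) ≤ ls X := by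
      refine le_of_forall_pos_le_add fun e he => ?_
      refine ls_le _ _ (by linarith) ?_
      filter_upwards [lt_of_ls X (ls X + e) (by linarith)] with k h1
      rw [BoundedContinuousFunction.star_apply, norm_star]
      exact h1.le
    calc ls (star X * X) ≤ ls (star X) * ls X := h
      _ ≤ ls X * ls X := mul_le_mul_of_nonneg_right hs hX
      _ = ls X ^ 2 := by ring
  · have h : ls X ≤ Real.sqrt (ls (star X * X)) := by
      refine le_of_forall_pos_le_add fun e he => ?_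
      refine ls_le _ _ (by positivity) ?_
      have h5 : ls (star X * X) < (Real.sqrt (ls (star X * X)) + e) ^ 2 := by
        have h6 := Real.sqrt_nonneg (ls (star X * X))
        have h7 := Real.sq_sqrt hXX
        nlinarith
      filter_upwards [lt_of_ls _ _ h5] with k h1
      rw [hk] at h1
      exact le_of_lt (lt_of_pow_lt_pow_left₀ 2 (by positivity) h1)
    calc ls X ^ 2 ≤ Real.sqrt (ls (star X * X)) ^ 2 := pow_le_pow_left₀ hX h 2
      _ = ls (star X * X) := Real.sq_sqrt hXX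

variable (B) in
/-- the C*-seminorm `limsup ‖X k‖` -/
def lsn : Pool.Agent.W444.QG.CStarSeminorm (ℕ →ᵇ B) where
  toFun := ls
  map_zero' := ls_zero
  add_le' := ls_add
  neg' X := by
    have : -X = (-1 : ℂ) • X := by simp
    rw [this, ls_smul]; simp
  smul' c X := ls_smul c X
  mul_le' := ls_mul
  cstar' := ls_cstar

/-- evaluation -/
def evk (k : ℕ) : (ℕ →ᵇ B) →⋆ₐ[ℂ] B where
  toFun X := X k
  map_one' := rfl
  map_mul' _ _ := rfl
  map_zero' := rfl
  map_add' _ _ := rfl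
  commutes' _ := rfl
  map_star' _ := rfl

theorem t_SEQ : S_SEQ := by
  intro B _
  refine ⟨ℕ →ᵇ B, (lsn B).Compl, inferInstance, inferInstance, evk, (lsn B).incl,
    ?_, ?_, ?_, ?_⟩
  · rintro x ⟨C, hC⟩
    refine ⟨BoundedContinuousFunction.ofNormedAddCommGroup x continuous_of_discreteTopology C hC,
      fun k => rfl⟩
  · intro X Y h
    exact BoundedContinuousFunction.ext h
  · intro X r h
    rw [(lsn B).norm_incl] at h
    exact lt_of_ls X r h
  · intro X r hr h
    rw [(lsn B).norm_incl]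
    exact ls_le X r hr h

end Pool.Agent.N839.UN
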